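import Pool.Agent.R395.Nm.Nec5

/-!
# The modular Nahm sums with `A = I_r`; infinitely many admissible linear terms for `r ≥ 2`

The problem asks whether for every positive definite `A ∈ M_r(ℚ)` only finitely many `B ∈ ℚ^r` are
admissible. We determine all modular Nahm sums with `A = I_r`: `f_{I_r,B,C}` is a modular function if
and only if every rational number `b ≠ ±1/2` occurs among the `B_i` as often as `-b`, and
`C = ∑ (B_i²/4 - 1/48)`. In particular for `r ≥ 2` infinitely many `B` are admissible, and the answer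
to the question is negative.
-/

namespace Pool.Agent.Results.MP_8ce23f_nt.IdentityMatrix

open Complex UpperHalfPlane ModularForm Filter Topology Asymptotics
open scoped Real MatrixGroups Manifold
open Pool.Agent.TH825.Nahm (nahmSum nahmTerm)
open Pool.Agent.R395.Nm

theorem sym_of_perm {r : ℕ} (B : Fin r → ℚ) (σ : Equiv.Perm (Fin r)) (h : ∀ i, B (σ i) = -B i) :
    Sym B := by
  intro b _ _
  refine Finset.card_equiv σ fun i => ?_
  simp only [Finset.mem_filter, Finset.mem_univ, true_and, h i, neg_inj]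

/-- `(b, -b, 0, …, 0)` -/
def BB (r : ℕ) (b : ℚ) : Fin r → ℚ := fun i => if (i : ℕ) = 0 then b else if (i : ℕ) = 1 then -b else 0

theorem BB_sym {r : ℕ} (hr : 2 ≤ r) (b : ℚ) : Sym (BB r b) := by
  have h0 : 0 < r := by omega
  have h1 : 1 < r := by omega
  refine sym_of_perm _ (Equiv.swap ⟨0, h0⟩ ⟨1, h1⟩) fun i => ?_
  by_cases hi0 : i = ⟨0, h0⟩
  · subst hi0
    rw [Equiv.swap_apply_left]
    simp [BB]
  · by_cases hi1 : i = ⟨1, h1⟩
    · subst hi1
      rw [Equiv.swap_apply_right]
      simp [BB]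
    · rw [Equiv.swap_apply_of_ne_of_ne hi0 hi1]
      have e0 : (i : ℕ) ≠ 0 := fun h => hi0 (Fin.ext h)
      have e1 : (i : ℕ) ≠ 1 := fun h => hi1 (Fin.ext h)
      simp [BB, e0, e1]

theorem infinite_adm {r : ℕ} (hr : 2 ≤ r) :
    {B : Fin r → ℚ | ∃ C : ℚ, IsModularFunction
      (nahmSum (1 : Matrix (Fin r) (Fin r) ℚ) B C)}.Infinite := by
  refine Set.infinite_of_injective_forall_mem (f := BB r) ?_ fun b => ⟨_, suf _ (BB_sym hr b)⟩
  intro b c hbc
  have h0 : 0 < r := by omega
  have := congrFun hbc ⟨0, h0⟩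
  simpa [BB] using this

/-- Complete list of the modular Nahm sums with `A = I_r` (and `I_r` is positive definite, all the
sums converge absolutely); for `r ≥ 2` infinitely many `B` are admissible. -/
theorem result : ∀ r : ℕ,
    ((1 : Matrix (Fin r) (Fin r) ℚ).map (fun x : ℚ => (x : ℝ))).PosDef ∧
    (∀ (B : Fin r → ℚ) (C : ℚ) (τ : ℍ), Summable fun n : Fin r → ℕ =>
      ‖nahmTerm (1 : Matrix (Fin r) (Fin r) ℚ) B C τ n‖) ∧
    (∀ (B : Fin r → ℚ) (C : ℚ),
      IsModularFunction (nahmSum (1 : Matrix (Fin r) (Fin r) ℚ) B C) ↔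
        (∀ b : ℚ, b ≠ 1 / 2 → b ≠ -1 / 2 →
          (Finset.univ.filter fun i => B i = b).card =
            (Finset.univ.filter fun i => B i = -b).card) ∧
        C = ∑ i, ((B i) ^ 2 / 4 - 1 / 48)) ∧
    (2 ≤ r → {B : Fin r → ℚ | ∃ C : ℚ, IsModularFunction
      (nahmSum (1 : Matrix (Fin r) (Fin r) ℚ) B C)}.Infinite) := by
  intro r
  refine ⟨?_, fun B C τ => term_summable B C τ.im_pos, fun B C => ⟨fun h => ?_, ?_⟩, infinite_adm⟩
  · have : (1 : Matrix (Fin r) (Fin r) ℚ).map (fun x : ℚ => (x : ℝ)) = 1 := by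
      ext i j
      by_cases h : i = j
      · subst h; simp
      · simp [Matrix.one_apply_ne h]
    rw [this]
    exact Matrix.PosDef.one
  · have hs : Sym B := nec B C h.1
    exact ⟨hs, C_unique B C (CC B) h.1 (suf B hs).1⟩
  · rintro ⟨hs, rfl⟩
    exact suf B hs

end Pool.Agent.Results.MP_8ce23f_nt.IdentityMatrix
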